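import Pool.Agent.TH598.GV.Field2

/-!
# Complex sectional curvature from pinching

If all sectional curvatures of an algebraic curvature tensor lie in `[-b, -a]`, then all its complex
sectional curvatures are at most `-(4 a - b) / 3`.
-/

set_option autoImplicit false

namespace Pool.Agent.Helper169.HS

open Finset MeasureTheory Module
open Pool.Agent.W666.GB Pool.Agent.TH598.GV

variable {V : Type} [NormedAddCommGroup V] [InnerProductSpace ℝ V]

/-- `|x ∧ y| ^ 2` -/
noncomputable def ar (x y : V) : ℝ := inner ℝ x x * inner ℝ y y - inner ℝ x y ^ 2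

/-- bounds for the sectional curvatures give bounds for all pairs of vectors of a subspace -/
theorem sec_ar {R : V → V → V → V → ℝ} (h : AlgCurv R) (S : Submodule ℝ V) {a b : ℝ}
    (hs : ∀ x ∈ S, ∀ y ∈ S, ‖x‖ = 1 → ‖y‖ = 1 → inner ℝ x y = 0 →
      -b ≤ R x y x y ∧ R x y x y ≤ -a) (x y : V) (hxS : x ∈ S) (hyS : y ∈ S) :
    -(b * ar x y) ≤ R x y x y ∧ R x y x y ≤ -(a * ar x y) := by
  by_cases hx : x = 0
  · have h1 : R x y x y = 0 := by
      have h1 := h.smul 0 x y x y
      rw [zero_smul, zero_mul] at h1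
      rw [hx] at h1 ⊢
      exact h1
    have h2 : ar x y = 0 := by rw [ar, hx, inner_zero_left, inner_zero_left]; ring
    rw [h1, h2]; simp
  have hx0 : 0 < ‖x‖ := norm_pos_iff.mpr hx
  set c : ℝ := inner ℝ x y / ‖x‖ ^ 2 with hc
  set y' := y - c • x with hy'
  have hS : R x y x y = R x y' x y' := by
    simp only [hy', h.sub2, h.sub4, h.smul2, h.smul4, h.self12, h.self34]
    ring
  have horth : inner ℝ x y' = 0 := by
    rw [hy', inner_sub_right, inner_smul_right, real_inner_self_eq_norm_sq, hc]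
    field_simp
    ring
  have har : ar x y = ‖x‖ ^ 2 * ‖y'‖ ^ 2 := by
    have h2 : y = y' + c • x := by rw [hy']; abel
    have h3 : inner ℝ y y = ‖y'‖ ^ 2 + c ^ 2 * ‖x‖ ^ 2 := by
      rw [h2, inner_add_left, inner_add_right, inner_add_right, inner_smul_left,
        inner_smul_right, inner_smul_right, inner_smul_left, real_inner_comm x y', horth,
        real_inner_self_eq_norm_sq, real_inner_self_eq_norm_sq]
      simp
      ring
    have h4 : inner ℝ x y = c * ‖x‖ ^ 2 := by
      rw [hc]; field_simp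
    rw [ar, h3, h4, real_inner_self_eq_norm_sq]
    ring
  have hyS' : y' ∈ S := S.sub_mem hyS (S.smul_mem _ hxS)
  by_cases hy : y' = 0
  · have h1 : R x y' x y' = 0 := by
      have h1 := h.smul2 0 x y' x y'
      rw [zero_smul, zero_mul] at h1
      rw [hy] at h1 ⊢
      exact h1
    rw [hS, h1, har, hy]; simp
  have hy0 : 0 < ‖y'‖ := norm_pos_iff.mpr hy
  have h4 := hs (‖x‖⁻¹ • x) (S.smul_mem _ hxS) (‖y'‖⁻¹ • y') (S.smul_mem _ hyS')
    (by rw [norm_smul, norm_inv, norm_norm]; field_simp)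
    (by rw [norm_smul, norm_inv, norm_norm]; field_simp)
    (by rw [inner_smul_left, inner_smul_right, horth]; simp)
  rw [h.smul, h.smul2, h.smul3, h.smul4] at h4
  have h5 : R x y' x y' = (‖x‖ ^ 2 * ‖y'‖ ^ 2) *
      (‖x‖⁻¹ * (‖y'‖⁻¹ * (‖x‖⁻¹ * (‖y'‖⁻¹ * R x y' x y')))) := by field_simp
  have h6 : 0 ≤ ‖x‖ ^ 2 * ‖y'‖ ^ 2 := by positivity
  rw [hS, h5, har]
  constructor
  · have := mul_le_mul_of_nonneg_left h4.1 h6
    linarith
  · have := mul_le_mul_of_nonneg_left h4.2 h6
    linarith

theorem kap4 {R : V → V → V → V → ℝ} (h : AlgCurv R) (x y u v : V) :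
    R (x + u) (y + v) (x + u) (y + v) - R (x + u) (y - v) (x + u) (y - v) -
      R (x - u) (y + v) (x - u) (y + v) + R (x - u) (y - v) (x - u) (y - v) =
    8 * (R x y u v + R x v u y) := by
  have e1 := h.pair x y u v
  have e2 := h.pair x v u y
  simp only [h.add, h.add2, h.add3, h.add4, h.sub1, h.sub2, h.sub3, h.sub4]
  linear_combination 4 * e1 + 4 * e2

theorem polar {R : V → V → V → V → ℝ} (h : AlgCurv R) (x y u v : V) :
    24 * R x y u v =
      (R (x + u) (y + v) (x + u) (y + v) - R (x + u) (y - v) (x + u) (y - v) -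
        R (x - u) (y + v) (x - u) (y + v) + R (x - u) (y - v) (x - u) (y - v)) -
      (R (y + u) (x + v) (y + u) (x + v) - R (y + u) (x - v) (y + u) (x - v) -
        R (y - u) (x + v) (y - u) (x + v) + R (y - u) (x - v) (y - u) (x - v)) := by
  rw [kap4 h, kap4 h]
  have e1 := h.anti x y u v
  have e2 := h.pair x v u y
  have e3 := h.pair y v u x
  have e4 := h.anti y u x v
  have e5 := h.bianchi x y u v
  linear_combination (8 : ℝ) * e1 + 8 * e2 - 8 * e3 + 8 * e5 - 8 * e4

theorem cxs_eq {R : V → V → V → V → ℝ} (h : AlgCurv R) (x y u v : V) :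
    cxs R x y u v = R x u x u + R y v y v + R x v x v + R y u y u - 2 * R x y u v := by
  have e1 := h.anti x u y v
  have e2 := h.pair x v y u
  have e5 := h.bianchi x y u v
  unfold cxs
  linear_combination -2 * e1 - 2 * e2 + 2 * e5

/-- the real inequality behind `cx_core` -/
theorem cx_real {a b X Y U W p q r s K : ℝ} (hab : a ≤ b) (h3 : X + Y = U + W)
    (key : K ≤ -(a * ((X + Y) * (U + W) - 2 * (p ^ 2 + q ^ 2))) +
      b / 12 * (4 * X * Y + 4 * U * W + 2 * (X + Y) * (U + W) - 16 * (p ^ 2 + q ^ 2) -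
        4 * (r ^ 2 + s ^ 2)) -
      a / 12 * (4 * X * Y + 4 * U * W + 2 * (X + Y) * (U + W) + 8 * (p ^ 2 + q ^ 2) -
        4 * (r ^ 2 + s ^ 2))) :
    K + (4 * a - b) / 3 * ((X + Y) * (U + W)) ≤ 0 := by
  have g1 : 4 * X * Y + 4 * U * W - 4 * (r ^ 2 + s ^ 2) ≤ 2 * ((X + Y) * (U + W)) := by
    have e1 : X = U + W - Y := by linarith
    have e2 : 2 * ((X + Y) * (U + W)) - (4 * X * Y + 4 * U * W - 4 * (r ^ 2 + s ^ 2)) =
        (X - Y) ^ 2 + (U - W) ^ 2 + 4 * r ^ 2 + 4 * s ^ 2 := by
      rw [e1]; ring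
    have e3 : 0 ≤ (X - Y) ^ 2 + (U - W) ^ 2 + 4 * r ^ 2 + 4 * s ^ 2 := by positivity
    linarith
  have g2 := mul_le_mul_of_nonneg_left g1 (sub_nonneg.2 hab)
  have g3 : 0 ≤ (b - a) * (p ^ 2 + q ^ 2) :=
    mul_nonneg (sub_nonneg.2 hab) (by positivity)
  have e4 : -(a * ((X + Y) * (U + W) - 2 * (p ^ 2 + q ^ 2))) +
      b / 12 * (4 * X * Y + 4 * U * W + 2 * (X + Y) * (U + W) - 16 * (p ^ 2 + q ^ 2) -
        4 * (r ^ 2 + s ^ 2)) -
      a / 12 * (4 * X * Y + 4 * U * W + 2 * (X + Y) * (U + W) + 8 * (p ^ 2 + q ^ 2) -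
        4 * (r ^ 2 + s ^ 2)) + (4 * a - b) / 3 * ((X + Y) * (U + W)) =
      ((b - a) * (4 * X * Y + 4 * U * W - 4 * (r ^ 2 + s ^ 2)) -
        (b - a) * (2 * ((X + Y) * (U + W)))) / 12 - 4 / 3 * ((b - a) * (p ^ 2 + q ^ 2)) := by ring
  linarith

/-- the bound for two Hermitian orthogonal complex vectors of the same length -/
theorem cx_core {R : V → V → V → V → ℝ} (h : AlgCurv R) {a b : ℝ} (hab : a ≤ b)
    (hk : ∀ x y, -(b * ar x y) ≤ R x y x y ∧ R x y x y ≤ -(a * ar x y)) (x y u v : V)
    (h1 : (inner ℝ x u : ℝ) + inner ℝ y v = 0) (h2 : (inner ℝ y u : ℝ) = inner ℝ x v)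
    (h3 : (inner ℝ x x : ℝ) + inner ℝ y y = inner ℝ u u + inner ℝ v v) :
    cxs R x y u v + (4 * a - b) / 3 * cxs unitR x y u v ≤ 0 := by
  have e0 := cxs_eq h x y u v
  have e1 := polar h x y u v
  have a1 := (hk (x + u) (y + v)).1
  have a2 := (hk (x + u) (y - v)).2
  have a3 := (hk (x - u) (y + v)).2
  have a4 := (hk (x - u) (y - v)).1
  have b1 := (hk (y + u) (x + v)).2
  have b2 := (hk (y + u) (x - v)).1
  have b3 := (hk (y - u) (x + v)).1
  have b4 := (hk (y - u) (x - v)).2
  have c1 := (hk x u).2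
  have c2 := (hk y v).2
  have c3 := (hk x v).2
  have c4 := (hk y u).2
  have key : cxs R x y u v ≤ -(a * (ar x u + ar y v + ar x v + ar y u)) +
      b / 12 * (ar (x + u) (y + v) + ar (x - u) (y - v) + ar (y + u) (x - v) + ar (y - u) (x + v)) -
      a / 12 * (ar (x + u) (y - v) + ar (x - u) (y + v) + ar (y + u) (x + v) +
        ar (y - u) (x - v)) := by
    rw [e0]
    linarith
  have hu : cxs unitR x y u v = (inner ℝ x x + inner ℝ y y) * (inner ℝ u u + inner ℝ v v) := by
    have e3 : (inner ℝ y v : ℝ) = -inner ℝ x u := by linarith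
    simp only [cxs, unitR, real_inner_comm x u, real_inner_comm x v, real_inner_comm y u,
      real_inner_comm y v, real_inner_comm u v, real_inner_comm x y, h2, e3]
    ring
  set X : ℝ := inner ℝ x x with hX
  set Y : ℝ := inner ℝ y y with hY
  set U : ℝ := inner ℝ u u with hU
  set W : ℝ := inner ℝ v v with hW
  set p : ℝ := inner ℝ x u with hp
  set q : ℝ := inner ℝ x v with hq
  set r : ℝ := inner ℝ x y with hr
  set s : ℝ := inner ℝ u v with hs
  have e3 : (inner ℝ y v : ℝ) = -p := by linarith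
  have f1 : ar x u + ar y v + ar x v + ar y u = (X + Y) * (U + W) - 2 * (p ^ 2 + q ^ 2) := by
    simp only [ar, h2, e3, ← hX, ← hY, ← hU, ← hW, ← hp, ← hq]
    ring
  have f2 : ar (x + u) (y + v) + ar (x - u) (y - v) + ar (y + u) (x - v) + ar (y - u) (x + v) =
      4 * X * Y + 4 * U * W + 2 * (X + Y) * (U + W) - 16 * (p ^ 2 + q ^ 2) -
        4 * (r ^ 2 + s ^ 2) := by
    simp only [ar, inner_add_left, inner_add_right, inner_sub_left, inner_sub_right,
      real_inner_comm x u, real_inner_comm x v, real_inner_comm y u,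
      real_inner_comm y v, real_inner_comm u v, real_inner_comm x y, h2, e3, ← hX, ← hY, ← hU,
      ← hW, ← hp, ← hq, ← hr, ← hs]
    ring
  have f3 : ar (x + u) (y - v) + ar (x - u) (y + v) + ar (y + u) (x + v) + ar (y - u) (x - v) =
      4 * X * Y + 4 * U * W + 2 * (X + Y) * (U + W) + 8 * (p ^ 2 + q ^ 2) -
        4 * (r ^ 2 + s ^ 2) := by
    simp only [ar, inner_add_left, inner_add_right, inner_sub_left, inner_sub_right,
      real_inner_comm x u, real_inner_comm x v, real_inner_comm y u,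
      real_inner_comm y v, real_inner_comm u v, real_inner_comm x y, h2, e3, ← hX, ← hY, ← hU,
      ← hW, ← hp, ← hq, ← hr, ← hs]
    ring
  rw [f1, f2, f3] at key
  rw [hu]
  exact cx_real hab h3 key

theorem cxs_symm {R : V → V → V → V → ℝ} (h : AlgCurv R) (x y u v : V) :
    cxs R x y u v = R x u x u + R y v y v + R x v x v + R y u y u - R x u y v - R y v x u +
      R x v y u + R y u x v := by
  have e1 := h.pair x u y v
  have e2 := h.pair x v y u
  unfold cxs
  linear_combination e1 - e2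

theorem cxs_shift {R : V → V → V → V → ℝ} (h : AlgCurv R) (x y u v : V) (c d : ℝ) :
    cxs R x y (u + c • x - d • y) (v + c • y + d • x) = cxs R x y u v := by
  rw [cxs_symm h, cxs_symm h]
  simp only [h.add2, h.add4, h.sub2, h.sub4, h.smul2, h.smul4, h.self12, h.self34, h.anti x y,
    h.a34 _ _ y x]
  ring

theorem cxs_scale {R : V → V → V → V → ℝ} (h : AlgCurv R) (x y u v : V) (t : ℝ) :
    cxs R x y (t • u) (t • v) = t ^ 2 * cxs R x y u v := by
  simp only [cxs, h.smul2, h.smul4]
  ring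

theorem cxs_zero_left {R : V → V → V → V → ℝ} (h : AlgCurv R) (u v : V) :
    cxs R 0 0 u v = 0 := by
  have h0 : ∀ y z w : V, R 0 y z w = 0 := fun y z w => by
    have h1 := h.smul 0 0 y z w
    rwa [zero_smul, zero_mul] at h1
  simp [cxs, h0]

theorem cxs_zero_right {R : V → V → V → V → ℝ} (h : AlgCurv R) (x y : V) :
    cxs R x y 0 0 = 0 := by
  have h0 : ∀ y z w : V, R y 0 z w = 0 := fun y z w => by
    have h1 := h.smul2 0 y 0 z w
    rwa [zero_smul, zero_mul] at h1
  simp [cxs, h0]

/-- the bound for all complex planes -/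
theorem cx_all {R : V → V → V → V → ℝ} (h : AlgCurv R) {a b : ℝ} (hab : a ≤ b)
    (hk : ∀ x y, -(b * ar x y) ≤ R x y x y ∧ R x y x y ≤ -(a * ar x y)) (x y u v : V) :
    cxs R x y u v + (4 * a - b) / 3 * cxs unitR x y u v ≤ 0 := by
  by_cases hz : x = 0 ∧ y = 0
  · rw [hz.1, hz.2, cxs_zero_left h, cxs_zero_left unit_curv]
    simp
  have hz0 : 0 < (inner ℝ x x : ℝ) + inner ℝ y y := by
    rw [real_inner_self_eq_norm_sq, real_inner_self_eq_norm_sq]
    rcases not_and_or.1 hz with h1 | h1
    · have := norm_pos_iff.2 h1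
      positivity
    · have := norm_pos_iff.2 h1
      positivity
  set N : ℝ := (inner ℝ x x : ℝ) + inner ℝ y y with hN
  set c : ℝ := -((inner ℝ x u : ℝ) + inner ℝ y v) / N with hc
  set d : ℝ := ((inner ℝ y u : ℝ) - inner ℝ x v) / N with hd
  rw [← cxs_shift h x y u v c d, ← cxs_shift unit_curv x y u v c d]
  have i1 : (inner ℝ x (u + c • x - d • y) : ℝ) + inner ℝ y (v + c • y + d • x) = 0 := by
    simp only [inner_add_right, inner_sub_right, inner_smul_right, real_inner_comm x y]
    have : c * N = -((inner ℝ x u : ℝ) + inner ℝ y v) := by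
      rw [hc]; field_simp
    linear_combination this + c * hN
  have i2 : (inner ℝ y (u + c • x - d • y) : ℝ) = inner ℝ x (v + c • y + d • x) := by
    simp only [inner_add_right, inner_sub_right, inner_smul_right, real_inner_comm x y]
    have : d * N = (inner ℝ y u : ℝ) - inner ℝ x v := by
      rw [hd]; field_simp
    linear_combination -this - d * hN
  generalize u + c • x - d • y = u' at *
  generalize v + c • y + d • x = v' at *
  by_cases hw : u' = 0 ∧ v' = 0
  · rw [hw.1, hw.2, cxs_zero_right h, cxs_zero_right unit_curv]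
    simp
  have hw0 : 0 < (inner ℝ u' u' : ℝ) + inner ℝ v' v' := by
    rw [real_inner_self_eq_norm_sq, real_inner_self_eq_norm_sq]
    rcases not_and_or.1 hw with h1 | h1
    · have := norm_pos_iff.2 h1
      positivity
    · have := norm_pos_iff.2 h1
      positivity
  set M : ℝ := (inner ℝ u' u' : ℝ) + inner ℝ v' v' with hM
  have ht : (Real.sqrt (N / M)) ^ 2 = N / M := Real.sq_sqrt (by positivity)
  set t : ℝ := Real.sqrt (N / M)
  have ht0 : 0 < t ^ 2 := by rw [ht]; positivity
  have h3 : (inner ℝ x x : ℝ) + inner ℝ y y = inner ℝ (t • u') (t • u') +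
      inner ℝ (t • v') (t • v') := by
    simp only [inner_smul_left, inner_smul_right, conj_trivial]
    have : t ^ 2 * M = N := by rw [ht]; field_simp
    linear_combination -this + t ^ 2 * hM - hN
  have key := cx_core h hab hk x y (t • u') (t • v')
    (by simp only [inner_smul_right]; linear_combination t * i1)
    (by simp only [inner_smul_right]; rw [i2]) h3
  rw [cxs_scale h, cxs_scale unit_curv] at key
  by_contra hcon
  push Not at hcon
  have := mul_pos ht0 hcon
  linarith

/-- **Sectional pinching bounds the complex sectional curvatures.** -/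
theorem cx_nonpos {R : V → V → V → V → ℝ} (h : AlgCurv R) {a b : ℝ} (hab : a ≤ b)
    (hs : SecIn R (-b) (-a)) : CxNonpos (shiftT R ((4 * a - b) / 3)) := by
  intro x y u v
  have hk : ∀ x y, -(b * ar x y) ≤ R x y x y ∧ R x y x y ≤ -(a * ar x y) := fun x y =>
    sec_ar h ⊤ (fun x _ y _ hx hy hxy => hs x y hx hy hxy) x y trivial trivial
  have := cx_all h hab hk x y u v
  simp only [cxs, unitR] at this
  simp only [shiftT]
  linarith

end Pool.Agent.Helper169.HS
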