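import Pool.Agent.Helper169.HS.Main

/-!
# Tensors which satisfy the pinching hypothesis and whose curvature operator is not nonpositive
-/

set_option autoImplicit false

namespace Pool.Agent.Helper169.HS

open Finset MeasureTheory Module
open Pool.Agent.W666.GB Pool.Agent.TH598.GV

variable {V : Type} [NormedAddCommGroup V] [InnerProductSpace ℝ V] {m : ℕ}

/-- the standard skew form of the basis `e` -/
noncomputable def skA (e : OrthonormalBasis (Fin m × Bool) ℝ V) (x y : V) : ℝ :=
  ∑ i, ((inner ℝ (e (i, false)) x : ℝ) * inner ℝ (e (i, true)) y -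
    inner ℝ (e (i, true)) x * inner ℝ (e (i, false)) y)

theorem skA_add (e : OrthonormalBasis (Fin m × Bool) ℝ V) (x x' y : V) :
    skA e (x + x') y = skA e x y + skA e x' y := by
  simp only [skA, inner_add_right, ← Finset.sum_add_distrib]
  exact Finset.sum_congr rfl fun i _ => by ring

theorem skA_smul (e : OrthonormalBasis (Fin m × Bool) ℝ V) (t : ℝ) (x y : V) :
    skA e (t • x) y = t * skA e x y := by
  simp only [skA, inner_smul_right, Finset.mul_sum]
  exact Finset.sum_congr rfl fun i _ => by ring

theorem skA_anti (e : OrthonormalBasis (Fin m × Bool) ℝ V) (x y : V) :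
    skA e y x = - skA e x y := by
  simp only [skA, ← Finset.sum_neg_distrib]
  exact Finset.sum_congr rfl fun i _ => by ring

theorem skA_le (e : OrthonormalBasis (Fin m × Bool) ℝ V) (x y : V) :
    skA e x y ^ 2 ≤ ‖x‖ ^ 2 * ‖y‖ ^ 2 := by
  have hx := e.sum_sq_norm_inner_right x
  have hy := e.sum_sq_norm_inner_right y
  simp only [Real.norm_eq_abs, sq_abs] at hx hy
  set g : Fin m × Bool → ℝ := fun z => if z.2 = true then -(inner ℝ (e (z.1, false)) y : ℝ) else
    inner ℝ (e (z.1, true)) y with hg
  have h1 : skA e x y = ∑ z, (inner ℝ (e z) x : ℝ) * g z := by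
    rw [Fintype.sum_prod_type, skA]
    refine Finset.sum_congr rfl fun i _ => ?_
    rw [Fintype.sum_bool]
    simp [hg]
    ring
  have h2 : ∑ z, g z ^ 2 = ‖y‖ ^ 2 := by
    rw [← hy, Fintype.sum_prod_type, Fintype.sum_prod_type]
    refine Finset.sum_congr rfl fun i _ => ?_
    rw [Fintype.sum_bool, Fintype.sum_bool]
    simp [hg]
    ring
  have h3 := Finset.sum_mul_sq_le_sq_mul_sq Finset.univ (fun z => (inner ℝ (e z) x : ℝ)) g
  rw [← h1, hx, h2] at h3
  exact h3

/-- minus `2 m - 1` times the unit tensor, plus the tensor of the standard skew form -/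
noncomputable def exR (e : OrthonormalBasis (Fin m × Bool) ℝ V) (x y z w : V) : ℝ :=
  -((2 * m - 1) * unitR x y z w) +
    (2 * (skA e x y * skA e z w) + skA e x z * skA e y w - skA e x w * skA e y z)

theorem exR_curv (e : OrthonormalBasis (Fin m × Bool) ℝ V) : AlgCurv (exR e) where
  add x x' y z w := by
    simp only [exR, unit_curv.add, skA_add]
    ring
  smul t x y z w := by
    simp only [exR, unit_curv.smul, skA_smul]
    ring
  anti x y z w := by
    simp only [exR, unit_curv.anti x y z w, skA_anti e x y]
    ring
  pair x y z w := by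
    simp only [exR, unit_curv.pair x y z w, skA_anti e x z, skA_anti e y w, skA_anti e x w,
      skA_anti e y z]
    ring
  bianchi x y z w := by
    have := unit_curv.bianchi x y z w
    simp only [exR, skA_anti e x y, skA_anti e x z, skA_anti e y z]
    linear_combination -(2 * (m : ℝ) - 1) * this

theorem exR_sec (e : OrthonormalBasis (Fin m × Bool) ℝ V) :
    SecIn (exR e) (-(2 * m - 1)) (-(2 * m - 4)) := by
  intro x y hx hy hxy
  have h1 := skA_le e x y
  have h2 : skA e x x = 0 := by have := skA_anti e x x; linarith
  have h3 : skA e y y = 0 := by have := skA_anti e y y; linarith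
  have h4 : unitR x y x y = 1 := by
    simp only [unitR, real_inner_self_eq_norm_sq, hx, hy, hxy]
    ring
  have h5 : exR e x y x y = -(2 * m - 1) + 3 * skA e x y ^ 2 := by
    simp only [exR, h4, h2, h3, skA_anti e x y]
    ring
  rw [hx, hy] at h1
  rw [h5]
  constructor
  · nlinarith [sq_nonneg (skA e x y)]
  · linarith

theorem exR_op (e : OrthonormalBasis (Fin m × Bool) ℝ V) :
    ∑ i, ∑ j, exR e (e (i, false)) (e (i, true)) (e (j, false)) (e (j, true)) = 2 * m := by
  have hA : ∀ p q, skA e (e p) (e q) = if p.1 = q.1 then (if p.2 = q.2 then 0 else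
      if q.2 = true then 1 else -1) else 0 := by
    rintro ⟨i, s⟩ ⟨j, t⟩
    simp only [skA, inner_e, Prod.mk.injEq]
    by_cases hij : i = j
    · subst hij
      rw [Finset.sum_eq_single i]
      · cases s <;> cases t <;> simp
      · intro k _ hk
        simp [hk]
      · simp
    · rw [if_neg hij]
      refine Finset.sum_eq_zero fun k _ => ?_
      by_cases h1 : k = i
      · have : k ≠ j := fun h => hij (h1.symm.trans h)
        simp [this]
      · simp [h1]
  have h1 : ∀ i j : Fin m, exR e (e (i, false)) (e (i, true)) (e (j, false)) (e (j, true)) =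
      2 + (if i = j then -(2 * (m : ℝ) - 1) + 1 else 0) := by
    intro i j
    simp only [exR, unitR, hA, inner_e, Prod.mk.injEq]
    by_cases hij : i = j
    · subst hij
      simp
      ring
    · simp [hij]
  simp only [h1, Finset.sum_add_distrib, Finset.sum_ite_eq, Finset.mem_univ, if_true,
    Finset.sum_const, Finset.card_univ, Fintype.card_fin, nsmul_eq_mul]
  ring

/-- the curvature operator of `exR` is not nonpositive -/
theorem exR_not (e : OrthonormalBasis (Fin m × Bool) ℝ V) (hm : 1 ≤ m) :
    ¬ OpNonposOn (exR e) ⊤ := by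
  intro h
  have h1 := h m (fun i => e (i, false)) (fun i => e (i, true)) (fun _ => trivial)
    (fun _ => trivial)
  rw [exR_op] at h1
  have : (1 : ℝ) ≤ m := by exact_mod_cast hm
  linarith

end Pool.Agent.Helper169.HS
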