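import Pool.Agent.Helper169.HS.Final

/-!
# The example has a small positive part of the curvature operator
-/

set_option autoImplicit false

namespace Pool.Agent.Helper169.HS

open Finset MeasureTheory Module
open Pool.Agent.W666.GB Pool.Agent.TH598.GV

variable {V : Type} [NormedAddCommGroup V] [InnerProductSpace ℝ V] {m : ℕ}

theorem unit_sum2 (e : OrthonormalBasis (Fin m × Bool) ℝ V) {n : ℕ} (a b c d : Fin n → V) :
    2 * ∑ i, ∑ j, unitR (a i) (b i) (c j) (d j) = ∑ p, ∑ q, biv e a b p q * biv e c d p q := by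
  have hin : ∀ x y : V, (inner ℝ x y : ℝ) = ∑ p, inner ℝ (e p) x * inner ℝ (e p) y := fun x y => by
    rw [← e.sum_inner_mul_inner x y]
    refine Finset.sum_congr rfl fun p _ => ?_
    rw [real_inner_comm]
  have h1 : ∀ i j, 2 * unitR (a i) (b i) (c j) (d j) = ∑ p, ∑ q,
      ((inner ℝ (e p) (a i) : ℝ) * inner ℝ (e q) (b i) - inner ℝ (e q) (a i) * inner ℝ (e p) (b i)) *
      ((inner ℝ (e p) (c j) : ℝ) * inner ℝ (e q) (d j) -
        inner ℝ (e q) (c j) * inner ℝ (e p) (d j)) := by
    intro i j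
    rw [quad_sum]
    simp only [unitR]
    rw [hin (a i) (c j), hin (b i) (d j), hin (a i) (d j), hin (b i) (c j)]
  simp only [Finset.mul_sum]
  simp only [h1]
  have h2 : ∀ p q, biv e a b p q * biv e c d p q = ∑ i, ∑ j,
      ((inner ℝ (e p) (a i) : ℝ) * inner ℝ (e q) (b i) - inner ℝ (e q) (a i) * inner ℝ (e p) (b i)) *
      ((inner ℝ (e p) (c j) : ℝ) * inner ℝ (e q) (d j) -
        inner ℝ (e q) (c j) * inner ℝ (e p) (d j)) := by
    intro p q
    rw [biv, biv, Finset.sum_mul_sum]
  simp only [h2]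
  calc _ = ∑ i, ∑ p, ∑ j, ∑ q, ((inner ℝ (e p) (a i) : ℝ) * inner ℝ (e q) (b i) -
        inner ℝ (e q) (a i) * inner ℝ (e p) (b i)) *
      ((inner ℝ (e p) (c j) : ℝ) * inner ℝ (e q) (d j) -
        inner ℝ (e q) (c j) * inner ℝ (e p) (d j)) :=
        Finset.sum_congr rfl fun i _ => Finset.sum_comm
    _ = ∑ p, ∑ i, ∑ j, ∑ q, ((inner ℝ (e p) (a i) : ℝ) * inner ℝ (e q) (b i) -
        inner ℝ (e q) (a i) * inner ℝ (e p) (b i)) *
      ((inner ℝ (e p) (c j) : ℝ) * inner ℝ (e q) (d j) -
        inner ℝ (e q) (c j) * inner ℝ (e p) (d j)) := Finset.sum_comm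
    _ = ∑ p, ∑ i, ∑ q, ∑ j, ((inner ℝ (e p) (a i) : ℝ) * inner ℝ (e q) (b i) -
        inner ℝ (e q) (a i) * inner ℝ (e p) (b i)) *
      ((inner ℝ (e p) (c j) : ℝ) * inner ℝ (e q) (d j) -
        inner ℝ (e q) (c j) * inner ℝ (e p) (d j)) :=
        Finset.sum_congr rfl fun p _ => Finset.sum_congr rfl fun i _ => Finset.sum_comm
    _ = _ := Finset.sum_congr rfl fun p _ => Finset.sum_comm

/-- the complex structure of the basis -/
noncomputable def skJ (e : OrthonormalBasis (Fin m × Bool) ℝ V) (y : V) : V :=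
  ∑ i, ((inner ℝ (e (i, true)) y : ℝ) • e (i, false) - (inner ℝ (e (i, false)) y : ℝ) • e (i, true))

theorem inner_skJ (e : OrthonormalBasis (Fin m × Bool) ℝ V) (x y : V) :
    (inner ℝ x (skJ e y) : ℝ) = skA e x y := by
  rw [skJ, inner_sum, skA]
  refine Finset.sum_congr rfl fun i _ => ?_
  rw [inner_sub_right, inner_smul_right, inner_smul_right, real_inner_comm x, real_inner_comm x]
  ring

theorem coord_skJ_f (e : OrthonormalBasis (Fin m × Bool) ℝ V) (y : V) (i : Fin m) :
    (inner ℝ (e (i, false)) (skJ e y) : ℝ) = inner ℝ (e (i, true)) y := by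
  rw [inner_skJ, skA, Finset.sum_eq_single i]
  · simp [inner_e]
  · intro k _ hk
    simp [inner_e, hk]
  · simp

theorem coord_skJ_t (e : OrthonormalBasis (Fin m × Bool) ℝ V) (y : V) (i : Fin m) :
    (inner ℝ (e (i, true)) (skJ e y) : ℝ) = -inner ℝ (e (i, false)) y := by
  rw [inner_skJ, skA, Finset.sum_eq_single i]
  · simp [inner_e]
  · intro k _ hk
    simp [inner_e, hk]
  · simp

theorem skJ_isom (e : OrthonormalBasis (Fin m × Bool) ℝ V) (x y : V) :
    (inner ℝ (skJ e x) (skJ e y) : ℝ) = inner ℝ x y := by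
  have hin : (inner ℝ x y : ℝ) = ∑ p, inner ℝ (e p) x * inner ℝ (e p) y := by
    rw [← e.sum_inner_mul_inner x y]
    refine Finset.sum_congr rfl fun p _ => ?_
    rw [real_inner_comm]
  rw [inner_skJ, skA, hin, Fintype.sum_prod_type]
  refine Finset.sum_congr rfl fun i _ => ?_
  rw [Fintype.sum_bool, coord_skJ_f, coord_skJ_t]
  ring

theorem cross_le (e : OrthonormalBasis (Fin m × Bool) ℝ V) {n : ℕ} (a b : Fin n → V) :
    ∑ i, ∑ j, (skA e (a i) (a j) * skA e (b i) (b j) - skA e (a i) (b j) * skA e (b i) (a j)) ≤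
      ∑ i, ∑ j, unitR (a i) (b i) (a j) (b j) := by
  have h1 := unit_sum2 e a b (fun j => skJ e (a j)) (fun j => skJ e (b j))
  have h2 := unit_sum e a b
  have h3 := unit_sum e (fun j => skJ e (a j)) (fun j => skJ e (b j))
  have h4 : ∀ i j, unitR (skJ e (a i)) (skJ e (b i)) (skJ e (a j)) (skJ e (b j)) =
      unitR (a i) (b i) (a j) (b j) := by
    intro i j
    simp only [unitR, skJ_isom]
  simp only [h4] at h3
  have h5 : ∀ i j, unitR (a i) (b i) (skJ e (a j)) (skJ e (b j)) =
      skA e (a i) (a j) * skA e (b i) (b j) - skA e (a i) (b j) * skA e (b i) (a j) := by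
    intro i j
    simp only [unitR, inner_skJ]
  simp only [h5] at h1
  have h6 : ∑ p, ∑ q, biv e a b p q * biv e (fun j => skJ e (a j)) (fun j => skJ e (b j)) p q ≤
      ∑ p, ∑ q, (biv e a b p q ^ 2 / 2 +
        biv e (fun j => skJ e (a j)) (fun j => skJ e (b j)) p q ^ 2 / 2) := by
    refine Finset.sum_le_sum fun p _ => Finset.sum_le_sum fun q _ => ?_
    nlinarith [sq_nonneg (biv e a b p q -
      biv e (fun j => skJ e (a j)) (fun j => skJ e (b j)) p q)]
  simp only [Finset.sum_add_distrib, ← Finset.sum_div] at h6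
  rw [← h1, ← h2, ← h3] at h6
  linarith

/-- the skew form as a bilinear map -/
noncomputable def skL (e : OrthonormalBasis (Fin m × Bool) ℝ V) : V →ₗ[ℝ] V →ₗ[ℝ] ℝ :=
  LinearMap.mk₂ ℝ (fun x y => Real.sqrt 2 * skA e x y)
    (fun x x' y => by rw [skA_add]; ring) (fun t x y => by rw [skA_smul, smul_eq_mul]; ring)
    (fun x y y' => by
      rw [skA_anti e (y + y') x, skA_add, skA_anti e x y, skA_anti e x y']; ring)
    (fun t x y => by rw [skA_anti e (t • y) x, skA_smul, skA_anti e x y, smul_eq_mul]; ring)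

theorem exR_small (e : OrthonormalBasis (Fin m × Bool) ℝ V) : SmallPositive e (exR e) := by
  have hs2 : Real.sqrt 2 ^ 2 = 2 := Real.sq_sqrt (by norm_num)
  refine ⟨1, fun _ => skL e, 2 * m - 2, ?_, ?_, ?_⟩
  · intro _ x
    have h : skA e x x = 0 := by have := skA_anti e x x; linarith
    simp [skL, h]
  · intro n a b
    have h1 := cross_le e a b
    have h2 : ∀ i j, exR e (a i) (b i) (a j) (b j) =
        -((2 * m - 1) * unitR (a i) (b i) (a j) (b j)) + 2 * (skA e (a i) (b i) *
          skA e (a j) (b j)) +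
        (skA e (a i) (a j) * skA e (b i) (b j) - skA e (a i) (b j) * skA e (b i) (a j)) := by
      intro i j
      simp only [exR]
      ring
    simp only [h2, Finset.sum_add_distrib, Finset.sum_neg_distrib, ← Finset.mul_sum,
      Finset.univ_unique, Finset.sum_singleton]
    have h3 : ∑ i, skL e (a i) (b i) = Real.sqrt 2 * ∑ i, skA e (a i) (b i) := by
      rw [Finset.mul_sum]
      rfl
    rw [h3, mul_pow, hs2]
    have h4 : ∑ i, ∑ j, skA e (a i) (b i) * skA e (a j) (b j) = (∑ i, skA e (a i) (b i)) ^ 2 := by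
      rw [sq, Finset.sum_mul_sum]
    simp only [← Finset.mul_sum] at h4 ⊢
    rw [h4]
    linarith
  · simp only [Finset.univ_unique, Finset.sum_singleton]
    have h1 : ∀ x y, skL e x y ^ 2 = 2 * skA e x y ^ 2 := fun x y => by
      simp only [skL, LinearMap.mk₂_apply]
      rw [mul_pow, hs2]
    have h2 : ∀ i, ∑ j, skA e (e i) (e j) ^ 2 = 1 := by
      intro i
      have h3 := e.sum_sq_norm_inner_right (skJ e (e i))
      simp only [Real.norm_eq_abs, sq_abs, inner_skJ] at h3
      have h4 : ‖skJ e (e i)‖ ^ 2 = 1 := by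
        rw [← real_inner_self_eq_norm_sq, skJ_isom, real_inner_self_eq_norm_sq]
        simp
      rw [← h4, ← h3]
      refine Finset.sum_congr rfl fun j _ => ?_
      rw [skA_anti e (e j) (e i)]
      ring
    simp only [h1, ← Finset.mul_sum, h2, Finset.sum_const, Finset.card_univ, Fintype.card_prod,
      Fintype.card_fin, Fintype.card_bool, nsmul_eq_mul]
    push_cast
    apply le_of_eq
    ring

/-- the complex sectional curvatures of the example -/
theorem exR_cx (e : OrthonormalBasis (Fin m × Bool) ℝ V) :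
    CxNonpos (shiftT (exR e) (2 * m - 5)) := by
  have h := cx_nonpos (exR_curv e) (a := 2 * m - 4) (b := 2 * m - 1) (by linarith) (exR_sec e)
  have e1 : (4 * (2 * (m : ℝ) - 4) - (2 * m - 1)) / 3 = 2 * m - 5 := by ring
  rwa [e1] at h

end Pool.Agent.Helper169.HS
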