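import Pool.Agent.Helper169.HS.One

/-!
# The two pointwise conditions and the integrated forms
-/

set_option autoImplicit false

namespace Pool.Agent.Helper169.HS

open Finset MeasureTheory Module
open Pool.Agent.W666.GB Pool.Agent.TH598.GV

/-- All sectional curvatures of `R` lie in `[-b, -a]`, where `a ≤ b ≤ 4 a` and `κ = (4 a - b) / 3`,
and on one hyperplane `S` they lie in `[-B, -A]`, where `(n - 4) B ≤ (n - 1) A` for the dimension
`n = 2 m`. -/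
def HyperPinched {V : Type} [NormedAddCommGroup V] [InnerProductSpace ℝ V] (m : ℕ)
    (R : V → V → V → V → ℝ) (κ : ℝ) : Prop :=
  ∃ (a b A B : ℝ) (S : Submodule ℝ V), a ≤ b ∧ b ≤ 4 * a ∧ κ = (4 * a - b) / 3 ∧
    SecIn R (-b) (-a) ∧ finrank ℝ S + 1 = 2 * m ∧ A ≤ B ∧
      (2 * m - 4) * B ≤ (2 * m - 1) * A ∧ SecInOn R S (-B) (-A)

/-- The curvature operator of `R` is at most `-μ + ∑ A s ⊗ A s` for some two-forms
(skew-symmetric forms) `A s` with `(m - 1) ∑ |A s| ^ 2 ≤ m μ`; here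
`2 |A| ^ 2 = ∑ A (e i, e j) ^ 2`. If `λ₁ ≥ λ₂ ≥ …` are the eigenvalues of the curvature operator,
this says that `(m - 1) ∑ (λ i + μ)₊ ≤ m μ` for some `μ` (take for `A s` multiples of eigenvectors);
it holds with `μ = -λ₂` if `(m - 1) λ₁ + λ₂ ≤ 0`, `m ≥ 2`. -/
def SmallPositive {V : Type} [NormedAddCommGroup V] [InnerProductSpace ℝ V] {m : ℕ}
    (e : OrthonormalBasis (Fin m × Bool) ℝ V) (R : V → V → V → V → ℝ) : Prop :=
  ∃ (r : ℕ) (A : Fin r → V →ₗ[ℝ] V →ₗ[ℝ] ℝ) (μ : ℝ), (∀ s x, A s x x = 0) ∧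
    (∀ (n : ℕ) (a b : Fin n → V), ∑ i, ∑ j, R (a i) (b i) (a j) (b j) ≤
      -(μ * ∑ i, ∑ j, unitR (a i) (b i) (a j) (b j)) + ∑ s, (∑ i, A s (a i) (b i)) ^ 2) ∧
    (m - 1) * ∑ s, ∑ i, ∑ j, A s (e i) (e j) ^ 2 ≤ 2 * m * μ

section

variable {V : Type} [NormedAddCommGroup V] [InnerProductSpace ℝ V] {m : ℕ}

theorem point_pinched (e : OrthonormalBasis (Fin m × Bool) ℝ V) {R : V → V → V → V → ℝ}
    (hR : AlgCurv R) {κ : ℝ} (h : HyperPinched m R κ) :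
    0 ≤ κ ∧ roundGB m κ ≤ (-1) ^ m * gbc e R := by
  obtain ⟨a, b, A, B, S, hab, hb, hκ, hs, hS, hAB, hp, hsS⟩ := h
  refine ⟨by linarith, ?_⟩
  rw [hκ]
  exact point_hyper e hR hab hb hs S hS hAB hsS hp

/-- uniform pinching -/
theorem hyper_of_unif (e : OrthonormalBasis (Fin m × Bool) ℝ V) {R : V → V → V → V → ℝ}
    {a b : ℝ} (hm : 3 ≤ m) (hs : SecIn R (-b) (-a)) (hp : (2 * m - 4) * b ≤ (2 * m - 1) * a) :
    0 ≤ a ∧ HyperPinched m R ((4 * a - b) / 3) ∧ (0 < a → 0 < (4 * a - b) / 3) := by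
  have hm' : (3 : ℝ) ≤ m := by exact_mod_cast hm
  have hab := le_of_secIn e (by omega) hs
  have ha : 0 ≤ a := by
    by_contra hcon
    push Not at hcon
    nlinarith
  have hb : b ≤ 5 / 2 * a := by
    by_contra hcon
    push Not at hcon
    nlinarith
  obtain ⟨S, hS⟩ := exists_hyper e (by omega)
  exact ⟨ha, ⟨a, b, a, b, S, hab, by linarith, rfl, hs, hS, hab, hp, fun x _ y _ => hs x y⟩,
    fun h => by linarith⟩

/-- the pointwise inequality for a small positive part of the curvature operator -/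
theorem point_small (e : OrthonormalBasis (Fin m × Bool) ℝ V) (hm : 1 ≤ m)
    {R : V → V → V → V → ℝ} (hR : AlgCurv R) (h : SmallPositive e R) :
    (∀ κ : ℝ, 0 ≤ κ → CxNonpos (shiftT R κ) → roundGB m κ ≤ (-1) ^ m * gbc e R) ∧
      (CxNeg R → 0 < (-1) ^ m * gbc e R) := by
  obtain ⟨r, A, μ, hA, hO, htr⟩ := h
  obtain ⟨S, hS, hN⟩ := exists_good e hm A hA hO htr
  exact ⟨fun κ hκ hC => point_strong e hR hκ hC S hS hN, fun hC => point_strict e hR hC S hS hN⟩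

end

/-- the integrated forms -/
theorem field_pinched {m : ℕ} {M : Type} [MeasurableSpace M] (μ : Measure M) (K : CurvField m M)
    (κ : M → ℝ) (h : ∀ p, HyperPinched m (K.R p) (κ p)) :
    0 ≤ (-1) ^ m * ∫ p, K.gb p ∂μ ∧
    (Integrable K.gb μ → Integrable (fun p => roundGB m (κ p)) μ →
      ∫ p, roundGB m (κ p) ∂μ ≤ (-1) ^ m * ∫ p, K.gb p ∂μ) ∧
    (Integrable K.gb μ → μ {p | 0 < κ p} ≠ 0 → 0 < (-1) ^ m * ∫ p, K.gb p ∂μ) := by
  have h0 : ∀ p, 0 ≤ κ p ∧ roundGB m (κ p) ≤ (-1) ^ m * K.gb p := fun p =>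
    point_pinched (K.e p) (K.curv p) (h p)
  have h1 : ∀ p, 0 ≤ (-1) ^ m * K.gb p := fun p => (roundGB_nonneg' m (h0 p).1).trans (h0 p).2
  refine ⟨?_, fun hi hi' => ?_, fun hi hμ => ?_⟩
  · rw [← integral_const_mul]
    exact integral_nonneg h1
  · rw [← integral_const_mul]
    exact integral_mono hi' (hi.const_mul _) fun p => (h0 p).2
  · rw [← integral_const_mul, integral_pos_iff_support_of_nonneg h1 (hi.const_mul _)]
    refine lt_of_lt_of_le (pos_iff_ne_zero.2 hμ) (measure_mono ?_)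
    intro p hp
    exact ((roundGB_pos' m hp).trans_le (h0 p).2).ne'

/-- the integrated forms -/
theorem field_small {m : ℕ} (hm : 1 ≤ m) {M : Type} [MeasurableSpace M] (μ : Measure M)
    (K : CurvField m M) (κ : M → ℝ)
    (h : ∀ p, 0 ≤ κ p ∧ CxNonpos (shiftT (K.R p) (κ p)) ∧ SmallPositive (K.e p) (K.R p)) :
    0 ≤ (-1) ^ m * ∫ p, K.gb p ∂μ ∧
    (Integrable K.gb μ → Integrable (fun p => roundGB m (κ p)) μ →
      ∫ p, roundGB m (κ p) ∂μ ≤ (-1) ^ m * ∫ p, K.gb p ∂μ) ∧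
    (Integrable K.gb μ → μ {p | CxNeg (K.R p)} ≠ 0 → 0 < (-1) ^ m * ∫ p, K.gb p ∂μ) := by
  refine field_strong μ K κ fun p => ?_
  obtain ⟨h1, h2, r, A, μ', hA, hO, htr⟩ := h p
  obtain ⟨S, hS, hN⟩ := exists_good (K.e p) hm A hA hO htr
  exact ⟨h1, h2, S, hS, hN⟩

end Pool.Agent.Helper169.HS
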