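import Pool.Agent.Helper169.HS.Op

/-!
# The Hopf sign from sectional curvature pinching, stronger on one hyperplane
-/

set_option autoImplicit false

namespace Pool.Agent.Helper169.HS

open Finset MeasureTheory Module
open Pool.Agent.W666.GB Pool.Agent.TH598.GV

/-- all sectional curvatures of the planes of the subspace `S` lie in the interval `[a, b]` -/
def SecInOn {V : Type} [NormedAddCommGroup V] [InnerProductSpace ℝ V] (R : V → V → V → V → ℝ)
    (S : Submodule ℝ V) (a b : ℝ) : Prop :=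
  ∀ x ∈ S, ∀ y ∈ S, ‖x‖ = 1 → ‖y‖ = 1 → inner ℝ x y = 0 → a ≤ R x y x y ∧ R x y x y ≤ b

section

variable {V : Type} [NormedAddCommGroup V] [InnerProductSpace ℝ V] {m : ℕ}

/-- the pointwise inequality -/
theorem point_hyper (e : OrthonormalBasis (Fin m × Bool) ℝ V) {R : V → V → V → V → ℝ}
    (hR : AlgCurv R) {a b A B : ℝ} (hab : a ≤ b) (hb : b ≤ 4 * a) (hs : SecIn R (-b) (-a))
    (S : Submodule ℝ V) (hS : finrank ℝ S + 1 = 2 * m) (hAB : A ≤ B)
    (hsS : SecInOn R S (-B) (-A)) (hp : (2 * m - 4) * B ≤ (2 * m - 1) * A) :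
    roundGB m ((4 * a - b) / 3) ≤ (-1) ^ m * gbc e R := by
  have : FiniteDimensional ℝ V := e.toBasis.finiteDimensional_of_finite
  exact point_strong e hR (by linarith) (cx_nonpos hR hab hs) S hS
    (op_nonpos hR S hAB hsS hS hp)

/-- an orthonormal pair -/
theorem le_of_secIn (e : OrthonormalBasis (Fin m × Bool) ℝ V) (hm : 1 ≤ m)
    {R : V → V → V → V → ℝ} {a b : ℝ} (hs : SecIn R (-b) (-a)) : a ≤ b := by
  have h := hs (e (⟨0, hm⟩, false)) (e (⟨0, hm⟩, true)) (by simp) (by simp)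
    (by rw [inner_e]; simp)
  linarith [h.1, h.2]

theorem exists_hyper (e : OrthonormalBasis (Fin m × Bool) ℝ V) (hm : 1 ≤ m) :
    ∃ S : Submodule ℝ V, finrank ℝ S + 1 = 2 * m := by
  have : FiniteDimensional ℝ V := e.toBasis.finiteDimensional_of_finite
  have hV : finrank ℝ V = 2 * m := by
    rw [finrank_eq_card_basis e.toBasis, Fintype.card_prod, Fintype.card_fin, Fintype.card_bool]
    ring
  have h1 := Submodule.finrank_add_finrank_orthogonal (Submodule.span ℝ {e (⟨0, hm⟩, false)})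
  rw [finrank_span_singleton (e.orthonormal.ne_zero _), hV] at h1
  exact ⟨_, by rw [add_comm]; exact h1⟩

/-- the pointwise inequality under uniform pinching -/
theorem point_unif (e : OrthonormalBasis (Fin m × Bool) ℝ V) {R : V → V → V → V → ℝ}
    (hR : AlgCurv R) {a b : ℝ} (hm : 3 ≤ m) (hs : SecIn R (-b) (-a))
    (hp : (2 * m - 4) * b ≤ (2 * m - 1) * a) :
    0 ≤ a ∧ b ≤ 5 / 2 * a ∧ roundGB m ((4 * a - b) / 3) ≤ (-1) ^ m * gbc e R ∧
      0 ≤ (-1) ^ m * gbc e R ∧ (0 < a → 0 < (-1) ^ m * gbc e R) := by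
  have hm' : (3 : ℝ) ≤ m := by exact_mod_cast hm
  have hab := le_of_secIn e (by omega) hs
  have ha : 0 ≤ a := by
    by_contra hcon
    push Not at hcon
    nlinarith
  have hb : b ≤ 5 / 2 * a := by
    by_contra hcon
    push Not at hcon
    nlinarith
  obtain ⟨S, hS⟩ := exists_hyper e (by omega)
  have h1 := point_hyper e hR hab (by linarith) hs S hS hab (fun x _ y _ => hs x y) hp
  have h2 : 0 ≤ roundGB m ((4 * a - b) / 3) := roundGB_nonneg' m (by linarith)
  exact ⟨ha, hb, h1, h2.trans h1, fun h => (roundGB_pos' m (by linarith)).trans_le h1⟩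

end

/-- the integrated form with a hyperplane -/
theorem field_hyper {m : ℕ} {M : Type} [MeasurableSpace M] (μ : Measure M) (K : CurvField m M)
    (a b A B : M → ℝ) (h : ∀ p, a p ≤ b p ∧ b p ≤ 4 * a p ∧ SecIn (K.R p) (-(b p)) (-(a p)) ∧
      ∃ S : Submodule ℝ (K.V p), finrank ℝ S + 1 = 2 * m ∧ A p ≤ B p ∧
        SecInOn (K.R p) S (-(B p)) (-(A p)) ∧ (2 * m - 4) * B p ≤ (2 * m - 1) * A p) :
    0 ≤ (-1) ^ m * ∫ p, K.gb p ∂μ ∧
    (Integrable K.gb μ → Integrable (fun p => roundGB m ((4 * a p - b p) / 3)) μ →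
      ∫ p, roundGB m ((4 * a p - b p) / 3) ∂μ ≤ (-1) ^ m * ∫ p, K.gb p ∂μ) ∧
    (Integrable K.gb μ → μ {p | b p < 4 * a p} ≠ 0 → 0 < (-1) ^ m * ∫ p, K.gb p ∂μ) := by
  have h0 : ∀ p, roundGB m ((4 * a p - b p) / 3) ≤ (-1) ^ m * K.gb p := by
    intro p
    obtain ⟨h1, h2, h3, S, hS, hAB, hsS, hp⟩ := h p
    exact point_hyper (K.e p) (K.curv p) h1 h2 h3 S hS hAB hsS hp
  have h1 : ∀ p, 0 ≤ (-1) ^ m * K.gb p := fun p =>
    (roundGB_nonneg' m (by linarith [(h p).2.1])).trans (h0 p)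
  refine ⟨?_, fun hi hi' => ?_, fun hi hμ => ?_⟩
  · rw [← integral_const_mul]
    exact integral_nonneg h1
  · rw [← integral_const_mul]
    exact integral_mono hi' (hi.const_mul _) h0
  · rw [← integral_const_mul, integral_pos_iff_support_of_nonneg h1 (hi.const_mul _)]
    refine lt_of_lt_of_le (pos_iff_ne_zero.2 hμ) (measure_mono ?_)
    intro p hp
    have hp' : b p < 4 * a p := hp
    exact ((roundGB_pos' m (by linarith)).trans_le (h0 p)).ne'

/-- the integrated form under uniform pinching -/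
theorem field_unif {m : ℕ} {M : Type} [MeasurableSpace M] (μ : Measure M) (K : CurvField m M)
    (a b : M → ℝ) (hm : 3 ≤ m) (h : ∀ p, SecIn (K.R p) (-(b p)) (-(a p)) ∧
      (2 * m - 4) * b p ≤ (2 * m - 1) * a p) :
    0 ≤ (-1) ^ m * ∫ p, K.gb p ∂μ ∧
    (Integrable K.gb μ → Integrable (fun p => roundGB m ((4 * a p - b p) / 3)) μ →
      ∫ p, roundGB m ((4 * a p - b p) / 3) ∂μ ≤ (-1) ^ m * ∫ p, K.gb p ∂μ) ∧
    (Integrable K.gb μ → μ {p | 0 < a p} ≠ 0 → 0 < (-1) ^ m * ∫ p, K.gb p ∂μ) := by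
  have h0 := fun p => point_unif (K.e p) (K.curv p) hm (h p).1 (h p).2
  have h1 : ∀ p, 0 ≤ (-1) ^ m * K.gb p := fun p => (h0 p).2.2.2.1
  refine ⟨?_, fun hi hi' => ?_, fun hi hμ => ?_⟩
  · rw [← integral_const_mul]
    exact integral_nonneg h1
  · rw [← integral_const_mul]
    exact integral_mono hi' (hi.const_mul _) fun p => (h0 p).2.2.1
  · rw [← integral_const_mul, integral_pos_iff_support_of_nonneg h1 (hi.const_mul _)]
    refine lt_of_lt_of_le (pos_iff_ne_zero.2 hμ) (measure_mono ?_)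
    intro p hp
    exact ((h0 p).2.2.2.2 hp).ne'

end Pool.Agent.Helper169.HS
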