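import Pool.Agent.Helper169.HS.Ex

/-!
# One positive eigenvalue of the curvature operator

If the curvature operator of `R` is at most `-μ + t A ⊗ A` for a two-form `A` with
`(m - 1) t |A| ^ 2 ≤ m μ`, then it is nonpositive on the bivectors of some hyperplane.
-/

set_option autoImplicit false

namespace Pool.Agent.Helper169.HS

open Finset MeasureTheory Module
open Pool.Agent.W666.GB Pool.Agent.TH598.GV

variable {V : Type} [NormedAddCommGroup V] [InnerProductSpace ℝ V] {m : ℕ}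

theorem quad_sum {J : Type} [Fintype J] (α β γ δ : J → ℝ) :
    ∑ p, ∑ q, (α p * β q - α q * β p) * (γ p * δ q - γ q * δ p) =
      2 * ((∑ p, α p * γ p) * (∑ p, β p * δ p) - (∑ p, α p * δ p) * (∑ p, β p * γ p)) := by
  have h1 : ∀ f g : J → ℝ, (∑ p, f p) * (∑ q, g q) = ∑ p, ∑ q, f p * g q := fun f g =>
    Finset.sum_mul_sum _ _ _ _
  have h2 : ∀ f g : J → ℝ, (∑ p, f p) * (∑ q, g q) = ∑ p, ∑ q, f q * g p := fun f g => by
    rw [h1, Finset.sum_comm]
  have e1 : 2 * ((∑ p, α p * γ p) * (∑ p, β p * δ p) - (∑ p, α p * δ p) * (∑ p, β p * γ p)) =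
      (∑ p, ∑ q, (α p * γ p) * (β q * δ q)) + (∑ p, ∑ q, (α q * γ q) * (β p * δ p)) -
      (∑ p, ∑ q, (α p * δ p) * (β q * γ q)) - (∑ p, ∑ q, (α q * δ q) * (β p * γ p)) := by
    rw [← h1, ← h2, ← h1, ← h2]
    ring
  rw [e1, ← Finset.sum_add_distrib, ← Finset.sum_sub_distrib, ← Finset.sum_sub_distrib]
  refine Finset.sum_congr rfl fun p _ => ?_
  rw [← Finset.sum_add_distrib, ← Finset.sum_sub_distrib, ← Finset.sum_sub_distrib]
  refine Finset.sum_congr rfl fun q _ => ?_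
  ring

/-- the coordinates of `∑ a k ∧ b k` -/
noncomputable def biv (e : OrthonormalBasis (Fin m × Bool) ℝ V) {n : ℕ} (a b : Fin n → V)
    (p q : Fin m × Bool) : ℝ :=
  ∑ k, ((inner ℝ (e p) (a k) : ℝ) * inner ℝ (e q) (b k) - inner ℝ (e q) (a k) * inner ℝ (e p) (b k))

theorem unit_sum (e : OrthonormalBasis (Fin m × Bool) ℝ V) {n : ℕ} (a b : Fin n → V) :
    2 * ∑ i, ∑ j, unitR (a i) (b i) (a j) (b j) = ∑ p, ∑ q, biv e a b p q ^ 2 := by
  have hin : ∀ x y : V, (inner ℝ x y : ℝ) = ∑ p, inner ℝ (e p) x * inner ℝ (e p) y := fun x y => by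
    rw [← e.sum_inner_mul_inner x y]
    refine Finset.sum_congr rfl fun p _ => ?_
    rw [real_inner_comm]
  have h1 : ∀ i j, 2 * unitR (a i) (b i) (a j) (b j) = ∑ p, ∑ q,
      ((inner ℝ (e p) (a i) : ℝ) * inner ℝ (e q) (b i) - inner ℝ (e q) (a i) * inner ℝ (e p) (b i)) *
      ((inner ℝ (e p) (a j) : ℝ) * inner ℝ (e q) (b j) -
        inner ℝ (e q) (a j) * inner ℝ (e p) (b j)) := by
    intro i j
    rw [quad_sum]
    simp only [unitR]
    rw [hin (a i) (a j), hin (b i) (b j), hin (a i) (b j), hin (b i) (a j)]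
  simp only [Finset.mul_sum]
  simp only [h1]
  have h2 : ∀ p q, biv e a b p q ^ 2 = ∑ i, ∑ j,
      ((inner ℝ (e p) (a i) : ℝ) * inner ℝ (e q) (b i) - inner ℝ (e q) (a i) * inner ℝ (e p) (b i)) *
      ((inner ℝ (e p) (a j) : ℝ) * inner ℝ (e q) (b j) -
        inner ℝ (e q) (a j) * inner ℝ (e p) (b j)) := by
    intro p q
    rw [sq, biv, Finset.sum_mul_sum]
  simp only [h2]
  calc _ = ∑ i, ∑ p, ∑ j, ∑ q, ((inner ℝ (e p) (a i) : ℝ) * inner ℝ (e q) (b i) -
        inner ℝ (e q) (a i) * inner ℝ (e p) (b i)) *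
      ((inner ℝ (e p) (a j) : ℝ) * inner ℝ (e q) (b j) -
        inner ℝ (e q) (a j) * inner ℝ (e p) (b j)) :=
        Finset.sum_congr rfl fun i _ => Finset.sum_comm
    _ = ∑ p, ∑ i, ∑ j, ∑ q, ((inner ℝ (e p) (a i) : ℝ) * inner ℝ (e q) (b i) -
        inner ℝ (e q) (a i) * inner ℝ (e p) (b i)) *
      ((inner ℝ (e p) (a j) : ℝ) * inner ℝ (e q) (b j) -
        inner ℝ (e q) (a j) * inner ℝ (e p) (b j)) := Finset.sum_comm
    _ = ∑ p, ∑ i, ∑ q, ∑ j, ((inner ℝ (e p) (a i) : ℝ) * inner ℝ (e q) (b i) -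
        inner ℝ (e q) (a i) * inner ℝ (e p) (b i)) *
      ((inner ℝ (e p) (a j) : ℝ) * inner ℝ (e q) (b j) -
        inner ℝ (e q) (a j) * inner ℝ (e p) (b j)) :=
        Finset.sum_congr rfl fun p _ => Finset.sum_congr rfl fun i _ => Finset.sum_comm
    _ = _ := Finset.sum_congr rfl fun p _ => Finset.sum_comm

theorem form_expand (e : OrthonormalBasis (Fin m × Bool) ℝ V) (A : V →ₗ[ℝ] V →ₗ[ℝ] ℝ) (x y : V) :
    A x y = ∑ p, ∑ q, A (e p) (e q) * (inner ℝ (e p) x * inner ℝ (e q) y) := by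
  conv_lhs => rw [← e.sum_repr' x, ← e.sum_repr' y]
  simp only [map_sum, LinearMap.sum_apply, map_smul, LinearMap.smul_apply, smul_eq_mul,
    Finset.mul_sum]
  rw [Finset.sum_comm]
  refine Finset.sum_congr rfl fun p _ => Finset.sum_congr rfl fun q _ => ?_
  ring

theorem form_swap (A : V →ₗ[ℝ] V →ₗ[ℝ] ℝ) (hA : ∀ x, A x x = 0) (x y : V) : A x y = - A y x := by
  have h := hA (x + y)
  simp only [map_add, LinearMap.add_apply, hA] at h
  linarith

theorem form_sum (e : OrthonormalBasis (Fin m × Bool) ℝ V) (A : V →ₗ[ℝ] V →ₗ[ℝ] ℝ)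
    (hA : ∀ x, A x x = 0) {n : ℕ} (a b : Fin n → V) :
    2 * ∑ k, A (a k) (b k) = ∑ p, ∑ q, A (e p) (e q) * biv e a b p q := by
  have h1 : ∀ k, 2 * A (a k) (b k) = ∑ p, ∑ q, A (e p) (e q) *
      ((inner ℝ (e p) (a k) : ℝ) * inner ℝ (e q) (b k) -
        inner ℝ (e q) (a k) * inner ℝ (e p) (b k)) := by
    intro k
    have e1 := form_expand e A (a k) (b k)
    have e2 : A (a k) (b k) = ∑ p, ∑ q, A (e p) (e q) *
        -(inner ℝ (e q) (a k) * inner ℝ (e p) (b k)) := by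
      rw [e1, Finset.sum_comm]
      refine Finset.sum_congr rfl fun p _ => Finset.sum_congr rfl fun q _ => ?_
      rw [form_swap A hA (e q) (e p)]
      ring
    rw [two_mul]
    nth_rewrite 1 [e1]
    rw [e2, ← Finset.sum_add_distrib]
    refine Finset.sum_congr rfl fun p _ => ?_
    rw [← Finset.sum_add_distrib]
    refine Finset.sum_congr rfl fun q _ => ?_
    ring
  rw [Finset.mul_sum, Finset.sum_congr rfl fun k _ => h1 k, Finset.sum_comm]
  refine Finset.sum_congr rfl fun p _ => ?_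
  rw [Finset.sum_comm]
  refine Finset.sum_congr rfl fun q _ => ?_
  rw [biv, Finset.mul_sum]

/-- Cauchy–Schwarz on the bivectors of the hyperplane orthogonal to `e i` -/
theorem cs_hyper (e : OrthonormalBasis (Fin m × Bool) ℝ V) (A : V →ₗ[ℝ] V →ₗ[ℝ] ℝ)
    (hA : ∀ x, A x x = 0) (i : Fin m × Bool) {n : ℕ} (a b : Fin n → V)
    (ha' : ∀ k, (inner ℝ (e i) (a k) : ℝ) = 0) (hb' : ∀ k, (inner ℝ (e i) (b k) : ℝ) = 0) :
    4 * (∑ k, A (a k) (b k)) ^ 2 ≤
      ((∑ p, ∑ q, A (e p) (e q) ^ 2) - 2 * ∑ j, A (e i) (e j) ^ 2) *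
        ∑ p, ∑ q, biv e a b p q ^ 2 := by
  have hz : ∀ p q, (p = i ∨ q = i) → biv e a b p q = 0 := by
    rintro p q (rfl | rfl) <;> simp [biv, ha', hb']
  have h3 := form_sum e A hA a b
  set T : ℝ := ∑ p, ∑ q, A (e p) (e q) ^ 2 with hT
  set A' : (Fin m × Bool) × (Fin m × Bool) → ℝ := fun z =>
    if z.1 = i ∨ z.2 = i then 0 else A (e z.1) (e z.2) with hA'
  have h4 : ∑ p, ∑ q, A (e p) (e q) * biv e a b p q = ∑ z, A' z * biv e a b z.1 z.2 := by
    rw [Fintype.sum_prod_type (fun z : (Fin m × Bool) × (Fin m × Bool) =>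
      A' z * biv e a b z.1 z.2)]
    refine Finset.sum_congr rfl fun p _ => ?_
    refine Finset.sum_congr rfl fun q _ => ?_
    by_cases hpq : p = i ∨ q = i
    · rw [hz p q hpq]; simp
    · simp only [hA', if_neg hpq]
  have h5 := Finset.sum_mul_sq_le_sq_mul_sq Finset.univ A' (fun z => biv e a b z.1 z.2)
  rw [← h4, ← h3] at h5
  have h6 : ∑ z : (Fin m × Bool) × (Fin m × Bool), biv e a b z.1 z.2 ^ 2 =
      ∑ p, ∑ q, biv e a b p q ^ 2 :=
    Fintype.sum_prod_type (fun z : (Fin m × Bool) × (Fin m × Bool) => biv e a b z.1 z.2 ^ 2)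
  have h7 : ∑ z, A' z ^ 2 = T - 2 * ∑ j, A (e i) (e j) ^ 2 := by
    have e1 : ∀ p q, A' (p, q) ^ 2 = A (e p) (e q) ^ 2 - (if p = i then A (e p) (e q) ^ 2 else 0) -
        (if q = i then A (e p) (e q) ^ 2 else 0) := by
      intro p q
      by_cases hp : p = i
      · by_cases hq : q = i
        · simp [hA', hp, hq, hA]
        · simp [hA', hp, hq]
      · by_cases hq : q = i
        · simp [hA', hp, hq]
        · simp [hA', hp, hq]
    rw [Fintype.sum_prod_type (fun z : (Fin m × Bool) × (Fin m × Bool) => A' z ^ 2)]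
    simp only [e1, Finset.sum_sub_distrib, ← hT]
    have e2 : ∑ p, ∑ q, (if p = i then A (e p) (e q) ^ 2 else 0) = ∑ j, A (e i) (e j) ^ 2 := by
      rw [Finset.sum_eq_single i]
      · simp
      · intro p _ hp
        simp [hp]
      · simp
    have e3 : ∑ p, ∑ q, (if q = i then A (e p) (e q) ^ 2 else 0) = ∑ j, A (e i) (e j) ^ 2 := by
      simp only [Finset.sum_ite_eq', Finset.mem_univ, if_true]
      refine Finset.sum_congr rfl fun p _ => ?_
      rw [form_swap A hA (e p) (e i)]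
      ring
    rw [e2, e3]
    ring
  rw [h6, h7] at h5
  linarith

/-- the curvature operator is nonpositive on the bivectors of a hyperplane -/
theorem exists_good (e : OrthonormalBasis (Fin m × Bool) ℝ V) (hm : 1 ≤ m)
    {R : V → V → V → V → ℝ} {μ : ℝ} {r : ℕ} (A : Fin r → V →ₗ[ℝ] V →ₗ[ℝ] ℝ)
    (hA : ∀ s x, A s x x = 0)
    (hO : ∀ (n : ℕ) (a b : Fin n → V), ∑ i, ∑ j, R (a i) (b i) (a j) (b j) ≤
      -(μ * ∑ i, ∑ j, unitR (a i) (b i) (a j) (b j)) + ∑ s, (∑ i, A s (a i) (b i)) ^ 2)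
    (htr : (m - 1) * ∑ s, ∑ i, ∑ j, A s (e i) (e j) ^ 2 ≤ 2 * m * μ) :
    ∃ S : Submodule ℝ V, finrank ℝ S + 1 = 2 * m ∧ OpNonposOn R S := by
  have hm' : (1 : ℝ) ≤ m := by exact_mod_cast hm
  have : FiniteDimensional ℝ V := e.toBasis.finiteDimensional_of_finite
  set T : ℝ := ∑ s, ∑ i, ∑ j, A s (e i) (e j) ^ 2 with hT
  obtain ⟨i, -, hi⟩ : ∃ i ∈ (Finset.univ : Finset (Fin m × Bool)), T / (2 * m) ≤
      ∑ s, ∑ j, A s (e i) (e j) ^ 2 := by
    refine Finset.exists_le_of_sum_le ⟨(⟨0, hm⟩, false), Finset.mem_univ _⟩ ?_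
    rw [Finset.sum_comm, ← hT, Finset.sum_const, Finset.card_univ, Fintype.card_prod,
      Fintype.card_fin, Fintype.card_bool, nsmul_eq_mul]
    push_cast
    apply le_of_eq
    field_simp
  have hV : finrank ℝ V = 2 * m := by
    rw [finrank_eq_card_basis e.toBasis, Fintype.card_prod, Fintype.card_fin, Fintype.card_bool]
    ring
  refine ⟨(Submodule.span ℝ {e i})ᗮ, ?_, ?_⟩
  · have h1 := Submodule.finrank_add_finrank_orthogonal (Submodule.span ℝ {e i})
    rw [finrank_span_singleton (e.orthonormal.ne_zero _), hV] at h1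
    rw [add_comm]; exact h1
  intro n a b ha hb
  have ha' : ∀ k, (inner ℝ (e i) (a k) : ℝ) = 0 := fun k =>
    (Submodule.mem_orthogonal_singleton_iff_inner_right).1 (ha k)
  have hb' : ∀ k, (inner ℝ (e i) (b k) : ℝ) = 0 := fun k =>
    (Submodule.mem_orthogonal_singleton_iff_inner_right).1 (hb k)
  have h1 := hO n a b
  have h2 := unit_sum e a b
  have h5 : ∑ s, 4 * (∑ k, A s (a k) (b k)) ^ 2 ≤ ∑ s,
      ((∑ p, ∑ q, A s (e p) (e q) ^ 2) - 2 * ∑ j, A s (e i) (e j) ^ 2) *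
        ∑ p, ∑ q, biv e a b p q ^ 2 :=
    Finset.sum_le_sum fun s _ => cs_hyper e (A s) (hA s) i a b ha' hb'
  rw [← Finset.mul_sum, ← Finset.sum_mul, Finset.sum_sub_distrib, ← Finset.mul_sum, ← hT] at h5
  set N : ℝ := ∑ p, ∑ q, biv e a b p q ^ 2 with hN
  have hN0 : 0 ≤ N := Finset.sum_nonneg fun p _ => Finset.sum_nonneg fun q _ => sq_nonneg _
  have h8 : (T - 2 * ∑ s, ∑ j, A s (e i) (e j) ^ 2) ≤ 2 * μ := by
    have e0 : T * ((m - 1) / m) = T - 2 * (T / (2 * m)) := by field_simp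
    have e1 : T * ((m - 1) / m) ≤ 2 * μ := by
      have e2 : T * ((m - 1) / m) = ((m - 1) * T) / m := by ring
      rw [e2, div_le_iff₀ (by linarith)]
      linarith
    linarith
  have h9 := mul_le_mul_of_nonneg_right h8 hN0
  have h13 : μ * ∑ i, ∑ j, unitR (a i) (b i) (a j) (b j) = μ * (N / 2) := by
    rw [← h2]; ring
  rw [h13] at h1
  linarith

end Pool.Agent.Helper169.HS
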