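import Pool.Agent.Helper169.HS.Cx
import Pool.Agent.H821R2.Bivec

/-!
# The curvature operator on a subspace of odd dimension from pinching

If the sectional curvatures of the planes of a subspace of dimension at most `2 k + 1` lie in
`[-B, -A]` and `(2 k - 2) B ≤ (2 k + 1) A`, then the curvature operator is nonpositive on the
bivectors of the subspace.
-/

set_option autoImplicit false

namespace Pool.Agent.Helper169.HS

open Finset Module
open Pool.Agent.W666.GB Pool.Agent.TH598.GV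
open Pool.Agent.H821R2 (wedge pair pair_wedge)

variable {V : Type} [NormedAddCommGroup V] [InnerProductSpace ℝ V]

/-- the value of `R` as a linear map of the first argument -/
noncomputable def lin1 {R : V → V → V → V → ℝ} (h : AlgCurv R) (y z w : V) : V →ₗ[ℝ] ℝ where
  toFun x := R x y z w
  map_add' x x' := h.add x x' y z w
  map_smul' t x := by simp [h.smul]

theorem sum1 {R : V → V → V → V → ℝ} (h : AlgCurv R) {ι : Type} (s : Finset ι) (c : ι → ℝ)
    (x : ι → V) (y z w : V) :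
    R (∑ i ∈ s, c i • x i) y z w = ∑ i ∈ s, c i * R (x i) y z w := by
  refine (map_sum (lin1 h y z w) (fun i => c i • x i) s).trans ?_
  exact Finset.sum_congr rfl fun i _ => h.smul _ _ _ _ _

theorem sum2 {R : V → V → V → V → ℝ} (h : AlgCurv R) {ι : Type} (s : Finset ι) (c : ι → ℝ)
    (x : ι → V) (y z w : V) :
    R y (∑ i ∈ s, c i • x i) z w = ∑ i ∈ s, c i * R y (x i) z w := by
  rw [h.anti, sum1 h, ← Finset.sum_neg_distrib]
  refine Finset.sum_congr rfl fun i _ => ?_
  rw [h.anti y (x i)]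
  ring

/-- the curvature operator applied to a bivector of `S`, paired with `x ∧ y` -/
noncomputable def opL (R : V → V → V → V → ℝ) (S : Submodule ℝ V) [FiniteDimensional ℝ S]
    (x y : V) : ⋀[ℝ]^2 S →ₗ[ℝ] ℝ :=
  (1 / 2 : ℝ) • ∑ k, ∑ l, R (stdOrthonormalBasis ℝ S k : V) (stdOrthonormalBasis ℝ S l : V) x y •
    pair (stdOrthonormalBasis ℝ S k) (stdOrthonormalBasis ℝ S l)

theorem expand2 {R : V → V → V → V → ℝ} (h : AlgCurv R) (S : Submodule ℝ V)
    [FiniteDimensional ℝ S] (x y : V) (a b : S) :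
    R a b x y = ∑ k, ∑ l, R (stdOrthonormalBasis ℝ S k : V) (stdOrthonormalBasis ℝ S l : V) x y *
      (inner ℝ (stdOrthonormalBasis ℝ S k) a * inner ℝ (stdOrthonormalBasis ℝ S l) b) := by
  set e := stdOrthonormalBasis ℝ S
  have ha : (a : V) = ∑ k, (inner ℝ (e k) a : ℝ) • (e k : V) := by
    have := e.sum_repr' a
    have h2 := congrArg (fun t : S => (t : V)) this
    simp only [Submodule.coe_sum, Submodule.coe_smul] at h2
    exact h2.symm
  have hb : (b : V) = ∑ k, (inner ℝ (e k) b : ℝ) • (e k : V) := by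
    have := e.sum_repr' b
    have h2 := congrArg (fun t : S => (t : V)) this
    simp only [Submodule.coe_sum, Submodule.coe_smul] at h2
    exact h2.symm
  conv_lhs => rw [ha, hb, sum1 h]
  refine Finset.sum_congr rfl fun k _ => ?_
  rw [sum2 h, Finset.mul_sum]
  refine Finset.sum_congr rfl fun l _ => ?_
  ring

theorem opL_wedge {R : V → V → V → V → ℝ} (h : AlgCurv R) (S : Submodule ℝ V)
    [FiniteDimensional ℝ S] (x y : V) (a b : S) : opL R S x y (wedge a b) = R a b x y := by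
  have e1 := expand2 h S x y a b
  have e2 := expand2 h S x y b a
  have e3 := h.anti a b x y
  simp only [opL, LinearMap.smul_apply, LinearMap.sum_apply, pair_wedge, smul_eq_mul]
  have e4 : ∑ k, ∑ l, R (stdOrthonormalBasis ℝ S k : V) (stdOrthonormalBasis ℝ S l : V) x y *
      (inner ℝ (stdOrthonormalBasis ℝ S k) a * inner ℝ (stdOrthonormalBasis ℝ S l) b -
        inner ℝ (stdOrthonormalBasis ℝ S k) b * inner ℝ (stdOrthonormalBasis ℝ S l) a) =
      R a b x y - R b a x y := by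
    rw [e1, e2, ← Finset.sum_sub_distrib]
    refine Finset.sum_congr rfl fun k _ => ?_
    rw [← Finset.sum_sub_distrib]
    refine Finset.sum_congr rfl fun l _ => ?_
    ring
  rw [e4, e3]
  ring

/-- bivectors in normal form -/
theorem sum_normal {R : V → V → V → V → ℝ} (h : AlgCurv R) (S : Submodule ℝ V)
    [FiniteDimensional ℝ S] {n m : ℕ} (a b : Fin n → S) (u v : Fin m → S) (c : Fin m → ℝ)
    (he : ∑ i, wedge (a i) (b i) = ∑ i, c i • wedge (u i) (v i)) :
    ∑ i, ∑ j, R (a i) (b i) (a j) (b j) = ∑ i, ∑ j, c i * c j * R (u i) (v i) (u j) (v j) := by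
  have key : ∀ x y : V, ∑ i, R (a i) (b i) x y = ∑ i, c i * R (u i) (v i) x y := by
    intro x y
    have := congrArg (opL R S x y) he
    simpa [map_sum, opL_wedge h] using this
  calc ∑ i, ∑ j, R (a i) (b i) (a j) (b j)
      = ∑ j, ∑ i, R (a i) (b i) (a j) (b j) := Finset.sum_comm
    _ = ∑ j, ∑ i, c i * R (u i) (v i) (a j) (b j) := by
        refine Finset.sum_congr rfl fun j _ => key _ _
    _ = ∑ i, ∑ j, c i * R (u i) (v i) (a j) (b j) := Finset.sum_comm
    _ = ∑ i, c i * ∑ j, R (a j) (b j) (u i) (v i) := by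
        refine Finset.sum_congr rfl fun i _ => ?_
        rw [Finset.mul_sum]
        refine Finset.sum_congr rfl fun j _ => ?_
        rw [h.pair]
    _ = ∑ i, c i * ∑ j, c j * R (u j) (v j) (u i) (v i) := by
        refine Finset.sum_congr rfl fun i _ => ?_
        rw [key]
    _ = ∑ i, ∑ j, c i * c j * R (u i) (v i) (u j) (v j) := by
        refine Finset.sum_congr rfl fun i _ => ?_
        rw [Finset.mul_sum]
        refine Finset.sum_congr rfl fun j _ => ?_
        rw [h.pair (u i) (v i) (u j) (v j)]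
        ring

/-- the bound of Berger for the mixed components -/
theorem berger {R : V → V → V → V → ℝ} (h : AlgCurv R) {A B : ℝ} (S : Submodule ℝ V)
    (hs : ∀ x ∈ S, ∀ y ∈ S, ‖x‖ = 1 → ‖y‖ = 1 → inner ℝ x y = 0 →
      -B ≤ R x y x y ∧ R x y x y ≤ -A) {x y u v : V} (hx : x ∈ S) (hy : y ∈ S) (hu : u ∈ S)
    (hv : v ∈ S) (xx : inner ℝ x x = (1 : ℝ)) (yy : inner ℝ y y = (1 : ℝ))
    (uu : inner ℝ u u = (1 : ℝ)) (vv : inner ℝ v v = (1 : ℝ)) (xy : inner ℝ x y = (0 : ℝ))
    (xu : inner ℝ x u = (0 : ℝ)) (xv : inner ℝ x v = (0 : ℝ)) (yu : inner ℝ y u = (0 : ℝ))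
    (yv : inner ℝ y v = (0 : ℝ)) (uv : inner ℝ u v = (0 : ℝ)) :
    R x y u v ≤ 2 / 3 * (B - A) := by
  have e1 := polar h x y u v
  have k := sec_ar h S hs
  have a1 := (k (x + u) (y + v) (S.add_mem hx hu) (S.add_mem hy hv)).2
  have a2 := (k (x + u) (y - v) (S.add_mem hx hu) (S.sub_mem hy hv)).1
  have a3 := (k (x - u) (y + v) (S.sub_mem hx hu) (S.add_mem hy hv)).1
  have a4 := (k (x - u) (y - v) (S.sub_mem hx hu) (S.sub_mem hy hv)).2
  have b1 := (k (y + u) (x + v) (S.add_mem hy hu) (S.add_mem hx hv)).1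
  have b2 := (k (y + u) (x - v) (S.add_mem hy hu) (S.sub_mem hx hv)).2
  have b3 := (k (y - u) (x + v) (S.sub_mem hy hu) (S.add_mem hx hv)).2
  have b4 := (k (y - u) (x - v) (S.sub_mem hy hu) (S.sub_mem hx hv)).1
  have yx : inner ℝ y x = (0 : ℝ) := by rw [real_inner_comm]; exact xy
  have ux : inner ℝ u x = (0 : ℝ) := by rw [real_inner_comm]; exact xu
  have vx : inner ℝ v x = (0 : ℝ) := by rw [real_inner_comm]; exact xv
  have uy : inner ℝ u y = (0 : ℝ) := by rw [real_inner_comm]; exact yu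
  have vy : inner ℝ v y = (0 : ℝ) := by rw [real_inner_comm]; exact yv
  have vu : inner ℝ v u = (0 : ℝ) := by rw [real_inner_comm]; exact uv
  simp only [ar, inner_add_left, inner_add_right, inner_sub_left, inner_sub_right, xx, yy, uu, vv,
    xy, xu, xv, yu, yv, uv, yx, ux, vx, uy, vy, vu] at a1 a2 a3 a4 b1 b2 b3 b4
  linarith

theorem berger_abs {R : V → V → V → V → ℝ} (h : AlgCurv R) {A B : ℝ} (S : Submodule ℝ V)
    (hs : ∀ x ∈ S, ∀ y ∈ S, ‖x‖ = 1 → ‖y‖ = 1 → inner ℝ x y = 0 →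
      -B ≤ R x y x y ∧ R x y x y ≤ -A) {x y u v : V} (hx : x ∈ S) (hy : y ∈ S) (hu : u ∈ S)
    (hv : v ∈ S) (xx : inner ℝ x x = (1 : ℝ)) (yy : inner ℝ y y = (1 : ℝ))
    (uu : inner ℝ u u = (1 : ℝ)) (vv : inner ℝ v v = (1 : ℝ)) (xy : inner ℝ x y = (0 : ℝ))
    (xu : inner ℝ x u = (0 : ℝ)) (xv : inner ℝ x v = (0 : ℝ)) (yu : inner ℝ y u = (0 : ℝ))
    (yv : inner ℝ y v = (0 : ℝ)) (uv : inner ℝ u v = (0 : ℝ)) :
    |R x y u v| ≤ 2 / 3 * (B - A) := by
  rw [abs_le]
  have h1 := berger h S hs hx hy hu hv xx yy uu vv xy xu xv yu yv uv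
  have h2 := berger h S hs hy hx hu hv yy xx uu vv (by rw [real_inner_comm]; exact xy) yu yv xu xv
    uv
  rw [h.anti] at h2
  constructor <;> linarith

/-- the quadratic form in a normal form -/
theorem quad_bound {m : ℕ} (T : Fin m → Fin m → ℝ) (c : Fin m → ℝ) {A g : ℝ} (hg : 0 ≤ g)
    (h1 : ∀ i, T i i ≤ -A) (h2 : ∀ i j, i ≠ j → |T i j| ≤ g) (h3 : 1 ≤ m → g * (m - 1) ≤ A) :
    ∑ i, ∑ j, c i * c j * T i j ≤ 0 := by
  rcases Nat.eq_zero_or_pos m with hm | hm
  · subst hm
    simp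
  have hgA := h3 hm
  have hb : ∀ i j, c i * c j * T i j ≤
      (if i = j then -(A + g) * c i ^ 2 else 0) + g * ((c i ^ 2 + c j ^ 2) / 2) := by
    intro i j
    by_cases hij : i = j
    · subst hij
      rw [if_pos rfl]
      have := mul_le_mul_of_nonneg_left (h1 i) (sq_nonneg (c i))
      nlinarith
    · rw [if_neg hij, zero_add]
      have e1 : c i * c j * T i j ≤ |c i * c j| * |T i j| := by
        rw [← abs_mul]; exact le_abs_self _
      have e2 : |c i * c j| * |T i j| ≤ |c i * c j| * g :=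
        mul_le_mul_of_nonneg_left (h2 i j hij) (abs_nonneg _)
      have e3 : |c i * c j| ≤ (c i ^ 2 + c j ^ 2) / 2 := by
        rw [abs_le]
        constructor <;> nlinarith [sq_nonneg (c i + c j), sq_nonneg (c i - c j)]
      have e4 := mul_le_mul_of_nonneg_right e3 hg
      linarith
  have hsum : ∑ i, ∑ j, c i * c j * T i j ≤ ∑ i, ∑ j,
      ((if i = j then -(A + g) * c i ^ 2 else 0) + g * ((c i ^ 2 + c j ^ 2) / 2)) :=
    Finset.sum_le_sum fun i _ => Finset.sum_le_sum fun j _ => hb i j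
  have hval : ∑ i, ∑ j : Fin m,
      ((if i = j then -(A + g) * c i ^ 2 else 0) + g * ((c i ^ 2 + c j ^ 2) / 2)) =
      (g * (m - 1) - A) * ∑ i, c i ^ 2 := by
    have e1 : ∀ i : Fin m, ∑ j : Fin m,
        ((if i = j then -(A + g) * c i ^ 2 else 0) + g * ((c i ^ 2 + c j ^ 2) / 2)) =
        -(A + g) * c i ^ 2 + g * (m * c i ^ 2 + ∑ j, c j ^ 2) / 2 := by
      intro i
      rw [Finset.sum_add_distrib, Finset.sum_ite_eq, if_pos (Finset.mem_univ _), ← Finset.mul_sum,
        ← Finset.sum_div, Finset.sum_add_distrib, Finset.sum_const, Finset.card_univ,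
        Fintype.card_fin, nsmul_eq_mul]
      ring
    rw [Finset.sum_congr rfl fun i _ => e1 i, Finset.sum_add_distrib, ← Finset.sum_div,
      ← Finset.mul_sum, ← Finset.mul_sum, Finset.sum_add_distrib, ← Finset.mul_sum,
      Finset.sum_const, Finset.card_univ, Fintype.card_fin, nsmul_eq_mul]
    ring
  rw [hval] at hsum
  have h4 : 0 ≤ ∑ i, c i ^ 2 := Finset.sum_nonneg fun i _ => sq_nonneg _
  nlinarith

/-- **Pinching and the curvature operator** (Bourguignon–Karcher, on a subspace). -/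
theorem op_nonpos {R : V → V → V → V → ℝ} (h : AlgCurv R) {A B : ℝ} (S : Submodule ℝ V)
    [FiniteDimensional ℝ S] (hAB : A ≤ B)
    (hs : ∀ x ∈ S, ∀ y ∈ S, ‖x‖ = 1 → ‖y‖ = 1 → inner ℝ x y = 0 →
      -B ≤ R x y x y ∧ R x y x y ≤ -A) {m : ℕ} (hS : finrank ℝ S + 1 = 2 * m)
    (hp : (2 * m - 4) * B ≤ (2 * m - 1) * A) : OpNonposOn R S := by
  intro n a b ha hb
  obtain ⟨m', u, v, c, hm', huu, hvv, huv, he⟩ := Pool.Agent.H821R2.exists_normal_form
    (finrank ℝ S) S rfl (∑ i, wedge (⟨a i, ha i⟩ : S) ⟨b i, hb i⟩)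
  have hN := sum_normal h S (fun i => (⟨a i, ha i⟩ : S)) (fun i => ⟨b i, hb i⟩) u v c he
  simp only at hN
  rw [hN]
  have huu' : ∀ i j, inner ℝ (u i : V) (u j : V) = if i = j then (1 : ℝ) else 0 := fun i j => by
    rw [← huu i j, Submodule.coe_inner]
  have hvv' : ∀ i j, inner ℝ (v i : V) (v j : V) = if i = j then (1 : ℝ) else 0 := fun i j => by
    rw [← hvv i j, Submodule.coe_inner]
  have huv' : ∀ i j, inner ℝ (u i : V) (v j : V) = (0 : ℝ) := fun i j => by
    rw [← huv i j, Submodule.coe_inner]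
  refine quad_bound (fun i j => R (u i) (v i) (u j) (v j)) c (A := A) (g := 2 / 3 * (B - A))
    (by linarith) ?_ ?_ ?_
  · intro i
    refine (hs (u i) (u i).2 (v i) (v i).2 ?_ ?_ (huv' i i)).2
    · have := huu' i i
      rw [if_pos rfl, real_inner_self_eq_norm_sq] at this
      exact (pow_eq_one_iff_of_nonneg (norm_nonneg _) two_ne_zero).1 this
    · have := hvv' i i
      rw [if_pos rfl, real_inner_self_eq_norm_sq] at this
      exact (pow_eq_one_iff_of_nonneg (norm_nonneg _) two_ne_zero).1 this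
  · intro i j hij
    refine berger_abs h S hs (u i).2 (v i).2 (u j).2 (v j).2 ?_ ?_ ?_ ?_ (huv' i i) ?_ (huv' i j)
      ?_ ?_ (huv' j j)
    · rw [huu', if_pos rfl]
    · rw [hvv', if_pos rfl]
    · rw [huu', if_pos rfl]
    · rw [hvv', if_pos rfl]
    · rw [huu', if_neg hij]
    · rw [real_inner_comm]; exact huv' j i
    · rw [hvv', if_neg hij]
  · intro h1
    have h2 : m' + 1 ≤ m := by omega
    have h3 : (m' : ℝ) + 1 ≤ m := by exact_mod_cast h2
    nlinarith [mul_nonneg (sub_nonneg.2 hAB) (sub_nonneg.2 h3)]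

end Pool.Agent.Helper169.HS
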